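import Pool.Agent.Lib.MP_28303a_al.HIG.Iface
import Pool.Agent.Lib.MP_d61eec_lc.Comp

/-! # The isolator closure of a recursively enumerable set is recursively enumerable -/

set_option autoImplicit false

namespace Pool.Agent.NegK.Hig.H7

open Pool.Agent.NegK.Hig Pool.Agent.Lib.MP_d61eec_lc FreeGroup

/-- The `n`-th power of a word. -/
def wpow (w : List Sg) (n : ℕ) : List Sg := n.rec [] fun _ ih => w ++ ih

theorem ev_append (u w : List Sg) : ev (u ++ w) = ev u * ev w := by
  rw [FreeGroup.mul_mk]

theorem ev_invRev (w : List Sg) : ev (invRev w) = (ev w)⁻¹ := by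
  rw [FreeGroup.inv_mk]

theorem ev_nil : ev [] = 1 := rfl

theorem ev_wpow (w : List Sg) (n : ℕ) : ev (wpow w n) = ev w ^ n := by
  induction n with
  | zero => rw [pow_zero]; rfl
  | succ n ih =>
    show ev (w ++ wpow w n) = _
    rw [ev_append, ih, pow_succ']

theorem ev_toWord (g : F2) : ev g.toWord = g := mk_toWord

theorem ev_reduce {u w : List Sg} (h : reduce u = reduce w) : ev u = ev w :=
  reduce.exact h

theorem reduce_ev {u w : List Sg} (h : ev u = ev w) : reduce u = reduce w :=
  reduce.sound h

/-- The test for roots. -/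
def core (n : ℕ) (w z : List Sg) : List Sg :=
  if 0 < n ∧ reduce (wpow w n) = reduce z then w else []

/-- The data of a step. -/
abbrev Dat : Type := ℕ × ℕ × ℕ × ℕ × ℕ × List Sg × List Sg

/-- The word of a step. -/
def stepg (f : ℕ → List Sg) (l : List (List Sg)) (d : Dat) : List Sg :=
  core d.2.2.2.1 d.2.2.2.2.2.2
      (bif decide (d.1 = 0) then f d.2.1
        else d.2.2.2.2.2.1 ++ ((l[d.2.1]?).getD [] ++
          (invRev d.2.2.2.2.2.1 ++ invRev ((l[d.2.2.1]?).getD []))))

/-- The decoding of the steps. -/
def dec (n : ℕ) : Option Dat := @Encodable.decode Dat Primcodable.toEncodable n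

/-- The coding of the steps. -/
def enc (d : Dat) : ℕ := @Encodable.encode Dat Primcodable.toEncodable d

theorem dec_enc (d : Dat) : dec (enc d) = some d :=
  @Encodable.encodek Dat Primcodable.toEncodable d

/-- One step of the enumeration, from the list of the previous words. -/
def stepf (f : ℕ → List Sg) (l : List (List Sg)) : List Sg :=
  Option.casesOn (dec l.length) [] (stepg f l)

/-- The first `n` words of the enumeration. -/
def lst (f : ℕ → List Sg) (n : ℕ) : List (List Sg) :=
  n.rec [] fun _ ih => ih ++ [stepf f ih]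

/-- The enumeration. -/
def D (f : ℕ → List Sg) (n : ℕ) : List Sg := stepf f (lst f n)

theorem lst_succ (f : ℕ → List Sg) (n : ℕ) : lst f (n + 1) = lst f n ++ [D f n] := rfl

theorem lst_length (f : ℕ → List Sg) (n : ℕ) : (lst f n).length = n := by
  induction n with
  | zero => rfl
  | succ n ih => rw [lst_succ, List.length_append, ih]; rfl

theorem lst_get (f : ℕ → List Sg) (n i : ℕ) (h : i < n) : (lst f n)[i]? = some (D f i) := by
  induction n with
  | zero => omega
  | succ n ih =>
    rw [lst_succ]
    rcases Nat.lt_or_ge i n with h1 | h1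
    · rw [List.getElem?_append_left (by rw [lst_length]; exact h1)]
      exact ih h1
    · have h2 : i = n := by omega
      subst h2
      rw [List.getElem?_append_right (by rw [lst_length]), lst_length, Nat.sub_self]
      rfl

/-! ### Soundness -/

theorem core_mem {S : Set F2} {n : ℕ} {w z : List Sg} (hz : ev z ∈ isol S) :
    ev (core n w z) ∈ isol S := by
  unfold core
  split_ifs with h
  · refine isol_pow S _ n h.1 ?_
    rw [← ev_wpow, ev_reduce h.2]
    exact hz
  · exact one_mem _

theorem getD_mem {S : Set F2} {l : List (List Sg)} (hl : ∀ x ∈ l, ev x ∈ isol S) (i : ℕ) :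
    ev ((l[i]?).getD []) ∈ isol S := by
  rcases h : l[i]? with _ | x
  · exact one_mem _
  · exact hl x (List.mem_of_getElem? h)

theorem stepf_mem {S : Set F2} {f : ℕ → List Sg} (hf : ∀ n, ev (f n) ∈ isol S)
    {l : List (List Sg)} (hl : ∀ x ∈ l, ev x ∈ isol S) : ev (stepf f l) ∈ isol S := by
  unfold stepf
  rcases dec l.length with _ | d
  · exact one_mem _
  · show ev (stepg f l d) ∈ isol S
    unfold stepg
    refine core_mem ?_
    by_cases h : d.1 = 0
    · simp only [h, decide_true, cond_true]
      exact hf _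
    · simp only [h, decide_false, cond_false]
      rw [ev_append, ev_append, ev_append, ev_invRev, ev_invRev, ← mul_assoc, ← mul_assoc]
      refine mul_mem ?_ (inv_mem (getD_mem hl _))
      exact (inferInstance : (isol S).Normal).conj_mem _ (getD_mem hl _) _

theorem lst_mem {S : Set F2} {f : ℕ → List Sg} (hf : ∀ n, ev (f n) ∈ isol S) (n : ℕ) :
    ∀ x ∈ lst f n, ev x ∈ isol S := by
  induction n with
  | zero => intro x hx; exact absurd hx List.not_mem_nil
  | succ n ih =>
    intro x hx
    rw [lst_succ, List.mem_append, List.mem_singleton] at hx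
    rcases hx with hx | hx
    · exact ih x hx
    · rw [hx]; exact stepf_mem hf ih

theorem D_mem {S : Set F2} {f : ℕ → List Sg} (hf : ∀ n, ev (f n) ∈ isol S) (n : ℕ) :
    ev (D f n) ∈ isol S := stepf_mem hf (lst_mem hf n)

/-! ### Completeness -/

theorem D_encode (f : ℕ → List Sg) (d : Dat) : D f (enc d) = stepg f (lst f (enc d)) d := by
  show stepf f (lst f (enc d)) = _
  unfold stepf
  rw [lst_length, dec_enc]

theorem core_eq {n : ℕ} {w z : List Sg} (hn : 0 < n) (h : ev w ^ n = ev z) :
    core n w z = w := by
  unfold core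
  rw [if_pos]
  refine ⟨hn, reduce_ev ?_⟩
  rw [ev_wpow, h]

theorem base (f : ℕ → List Sg) (i : ℕ) : ∃ k, D f k = f i := by
  refine ⟨enc (0, i, 0, 1, 0, [], f i), ?_⟩
  rw [D_encode]
  exact core_eq one_pos (by rw [pow_one]; rfl)

theorem enc_snd {α β : Type} [Primcodable α] [Primcodable β] (a : α) (b : β) :
    Encodable.encode b ≤ Encodable.encode (a, b) := Nat.right_le_pair _ _

theorem enc_fst {α : Type} [Primcodable α] (a : ℕ) (b : α) :
    a ≤ Encodable.encode (a, b) := Nat.left_le_pair _ _

theorem pad_lt (d : Dat) : d.2.2.2.2.1 ≤ enc d := by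
  obtain ⟨a, b, c, e, g, u, w⟩ := d
  refine le_trans ?_ (enc_snd a (b, c, e, g, u, w))
  refine le_trans ?_ (enc_snd b (c, e, g, u, w))
  refine le_trans ?_ (enc_snd c (e, g, u, w))
  refine le_trans ?_ (enc_snd e (g, u, w))
  exact enc_fst g (u, w)

theorem key (f : ℕ → List Sg) (i j n : ℕ) (u w : List Sg) (hn : 0 < n)
    (h : ev w ^ n = ev u * ev (D f i) * (ev u)⁻¹ * (ev (D f j))⁻¹) : ∃ k, D f k = w := by
  refine ⟨enc (1, i, j, n, i + j + 1, u, w), ?_⟩
  have hp := pad_lt (1, i, j, n, i + j + 1, u, w)
  rw [D_encode]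
  generalize enc (1, i, j, n, i + j + 1, u, w) = K at hp ⊢
  have hp' : i + j + 1 ≤ K := hp
  simp only [stepg, one_ne_zero, decide_false, cond_false]
  rw [lst_get f _ i (by omega), lst_get f _ j (by omega)]
  refine core_eq hn ?_
  simp only [Option.getD_some]
  rw [ev_append, ev_append, ev_append, ev_invRev, ev_invRev, h]
  group

theorem nilx (f : ℕ → List Sg) : ∃ k, D f k = [] :=
  key f 0 0 1 [] [] one_pos (by rw [ev_nil, pow_one]; group)

/-- The subgroup of the enumerated elements. -/
def sub (f : ℕ → List Sg) : Subgroup F2 where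
  carrier := {g | ∃ k, ev (D f k) = g}
  one_mem' := by
    obtain ⟨k, hk⟩ := nilx f
    exact ⟨k, by rw [hk]; rfl⟩
  inv_mem' := by
    rintro x ⟨j, rfl⟩
    obtain ⟨i, hi⟩ := nilx f
    obtain ⟨k, hk⟩ := key f i j 1 [] (invRev (D f j)) one_pos (by
      rw [hi, ev_invRev, ev_nil, pow_one]; group)
    exact ⟨k, by rw [hk, ev_invRev]⟩
  mul_mem' := by
    rintro x y ⟨i, rfl⟩ ⟨j, rfl⟩
    obtain ⟨e, he⟩ := nilx f
    obtain ⟨j', hj'⟩ := key f e j 1 [] (invRev (D f j)) one_pos (by
      rw [he, ev_invRev, ev_nil, pow_one]; group)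
    obtain ⟨k, hk⟩ := key f i j' 1 [] (D f i ++ D f j) one_pos (by
      rw [hj', ev_append, ev_invRev, ev_nil, pow_one]; group)
    exact ⟨k, by rw [hk, ev_append]⟩

theorem isol_le_sub (f : ℕ → List Sg) : isol (Set.range fun n => ev (f n)) ≤ sub f := by
  refine sInf_le ⟨⟨?_⟩, ?_, ?_⟩
  · rintro x ⟨i, rfl⟩ g
    obtain ⟨j, hj⟩ := nilx f
    obtain ⟨k, hk⟩ := key f i j 1 g.toWord (g.toWord ++ (D f i ++ invRev g.toWord)) one_pos (by
      rw [hj, ev_append, ev_append, ev_invRev, ev_nil, pow_one]; group)
    exact ⟨k, by rw [hk, ev_append, ev_append, ev_invRev, ev_toWord, mul_assoc]⟩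
  · rintro g n hn ⟨i, hi⟩
    obtain ⟨j, hj⟩ := nilx f
    obtain ⟨k, hk⟩ := key f i j n [] g.toWord hn (by
      rw [hj, ev_nil, ev_toWord, hi]; group)
    exact ⟨k, by rw [hk, ev_toWord]⟩
  · rintro x ⟨i, rfl⟩
    obtain ⟨k, hk⟩ := base f i
    exact ⟨k, by rw [hk]⟩

theorem mem_iff (f : ℕ → List Sg) (w : List Sg) :
    ev w ∈ isol (Set.range fun n => ev (f n)) ↔ ∃ k, D f k = w := by
  constructor
  · intro h
    obtain ⟨i, hi⟩ := isol_le_sub f h
    obtain ⟨j, hj⟩ := nilx f
    exact key f i j 1 [] w one_pos (by rw [hj, ev_nil, hi, pow_one]; group)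
  · rintro ⟨k, rfl⟩
    exact D_mem (S := Set.range fun n => ev (f n))
      (fun n => subset_isol _ (Set.mem_range_self n)) k

/-! ### Computability -/

theorem wpow_primrec : Primrec₂ wpow := by
  refine Primrec.nat_rec' (f := fun p : List Sg × ℕ => p.2) (g := fun _ => ([] : List Sg))
      (h := fun p q => p.1 ++ q.2) Primrec.snd (Primrec.const []) ?_
  exact Primrec.list_append.comp (Primrec.fst.comp Primrec.fst) (Primrec.snd.comp Primrec.snd)

theorem core_primrec : Primrec fun p : ℕ × List Sg × List Sg => core p.1 p.2.1 p.2.2 := by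
  have h1 : Primrec fun p : ℕ × List Sg × List Sg => p.1 := Primrec.fst
  have h2 : Primrec fun p : ℕ × List Sg × List Sg => p.2.1 := Primrec.fst.comp Primrec.snd
  have h3 : Primrec fun p : ℕ × List Sg × List Sg => p.2.2 := Primrec.snd.comp Primrec.snd
  refine Primrec.ite ?_ h2 (Primrec.const [])
  refine (Primrec.nat_lt.comp (Primrec.const 0) h1).and (Primrec.eq.comp ?_ ?_)
  · exact reduce_primrec.comp (wpow_primrec.comp h2 h1)
  · exact reduce_primrec.comp h3

theorem stepg_computable {f : ℕ → List Sg} (hf : Computable f) : Computable₂ (stepg f) := by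
  have d0 : Computable fun p : List (List Sg) × Dat => p.2 := Computable.snd
  have d1 : Computable fun p : List (List Sg) × Dat => p.2.2 := Computable.snd.comp d0
  have d2 : Computable fun p : List (List Sg) × Dat => p.2.2.2 := Computable.snd.comp d1
  have d3 : Computable fun p : List (List Sg) × Dat => p.2.2.2.2 := Computable.snd.comp d2
  have d4 : Computable fun p : List (List Sg) × Dat => p.2.2.2.2.2 := Computable.snd.comp d3
  have d5 : Computable fun p : List (List Sg) × Dat => p.2.2.2.2.2.2 := Computable.snd.comp d4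
  have d6 : Computable fun p : List (List Sg) × Dat => p.2.2.2.2.2.2.2 := Computable.snd.comp d5
  have e0 : Computable fun p : List (List Sg) × Dat => p.2.1 := Computable.fst.comp d0
  have e1 : Computable fun p : List (List Sg) × Dat => p.2.2.1 := Computable.fst.comp d1
  have e2 : Computable fun p : List (List Sg) × Dat => p.2.2.2.1 := Computable.fst.comp d2
  have e3 : Computable fun p : List (List Sg) × Dat => p.2.2.2.2.1 := Computable.fst.comp d3
  have e5 : Computable fun p : List (List Sg) × Dat => p.2.2.2.2.2.2.1 := Computable.fst.comp d5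
  have gi : Computable fun p : List (List Sg) × Dat => ((p.1)[p.2.2.1]?).getD [] :=
    Primrec.option_getD.to_comp.comp (Computable.list_getElem?.comp Computable.fst e1)
      (Computable.const [])
  have gj : Computable fun p : List (List Sg) × Dat => ((p.1)[p.2.2.2.1]?).getD [] :=
    Primrec.option_getD.to_comp.comp (Computable.list_getElem?.comp Computable.fst e2)
      (Computable.const [])
  have iu : Computable fun p : List (List Sg) × Dat => invRev p.2.2.2.2.2.2.1 :=
    (invRev_primrec (Y := Fin 2)).to_comp.comp e5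
  have ij : Computable fun p : List (List Sg) × Dat => invRev (((p.1)[p.2.2.2.1]?).getD []) :=
    (invRev_primrec (Y := Fin 2)).to_comp.comp gj
  have hb : Computable fun p : List (List Sg) × Dat => decide (p.2.1 = 0) :=
    (Primrec.eq.decide.to_comp).comp e0 (Computable.const 0)
  have hz : Computable fun p : List (List Sg) × Dat =>
      (bif decide (p.2.1 = 0) then f p.2.2.1
      else p.2.2.2.2.2.2.1 ++ (((p.1)[p.2.2.1]?).getD [] ++
        (invRev p.2.2.2.2.2.2.1 ++ invRev (((p.1)[p.2.2.2.1]?).getD [])))) := by
    refine Computable.cond hb (hf.comp e1) ?_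
    exact Computable.list_append.comp e5 (Computable.list_append.comp gi
      (Computable.list_append.comp iu ij))
  exact core_primrec.to_comp.comp (e3.pair (d6.pair hz))

theorem dec_computable : Computable dec := Computable.decode

theorem stepf_computable {f : ℕ → List Sg} (hf : Computable f) : Computable (stepf f) := by
  have h1 : Computable fun l : List (List Sg) => dec l.length :=
    dec_computable.comp Computable.list_length
  have h0 : Computable fun _ : List (List Sg) => ([] : List Sg) := Computable.const []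
  have h3 := stepg_computable hf
  have h2 := Computable.option_casesOn h1 h0 h3
  refine h2.of_eq fun l => ?_
  unfold stepf
  rfl

theorem lst_computable {f : ℕ → List Sg} (hf : Computable f) : Computable (lst f) := by
  refine Computable.nat_rec (f := fun n : ℕ => n) (g := fun _ => ([] : List (List Sg)))
    (h := fun _ p => p.2 ++ [stepf f p.2]) Computable.id (Computable.const []) ?_
  have h2 : Computable fun q : ℕ × (ℕ × List (List Sg)) => q.2.2 :=
    Computable.snd.comp Computable.snd
  exact Computable.list_append.comp h2 (Computable.list_cons.comp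
    ((stepf_computable hf).comp h2) (Computable.const []))

theorem D_computable {f : ℕ → List Sg} (hf : Computable f) : Computable (D f) :=
  (stepf_computable hf).comp (lst_computable hf)

/-- Module ISORE. -/
theorem isore : IsoreStatement := by
  intro f hf
  have h1 : Computable fun p : List Sg × ℕ => decide (D f p.2 = p.1) :=
    (Primrec.eq.decide.to_comp).comp ((D_computable hf).comp Computable.snd) Computable.fst
  have h2 : Partrec fun w : List Sg => Nat.rfind fun k => Part.some (decide (D f k = w)) :=
    Partrec.rfind h1.partrec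
  refine (Partrec.dom_re h2).of_eq fun w => ?_
  rw [mem_iff]
  refine Nat.rfind_dom'.trans ?_
  constructor
  · rintro ⟨k, hk, _⟩
    refine ⟨k, ?_⟩
    rw [Part.mem_some_iff] at hk
    exact of_decide_eq_true hk.symm
  · rintro ⟨k, hk⟩
    exact ⟨k, by rw [Part.mem_some_iff]; exact (decide_eq_true hk).symm, fun _ => trivial⟩

end Pool.Agent.NegK.Hig.H7
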