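import Pool.Agent.Lib.MP_28303a_al.HIG.Iface
import Pool.Agent.Lib.MP_d61eec_lc.Comp

/-! # The relators of the group `GU` can be enumerated -/

set_option autoImplicit false

namespace Pool.Agent.NegK.Hig.H7

open Pool.Agent.NegK.Hig Pool.Agent.Lib.MP_d61eec_lc FreeGroup

theorem isol_le {F : Type} [Group F] {s t : Set F} (h : s ⊆ isol t) : isol s ≤ isol t :=
  sInf_le ⟨inferInstance, fun g n hn hg => isol_pow t g n hn hg, h⟩

theorem gam_pr : PR gam := by
  unfold gam
  exact (((PR.const lt).mul (((PR.pow lx⁻¹).mul (PR.const ly)).mul (PR.pow lx))).mul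
    (PR.const lt⁻¹)).mul (((PR.pow ly⁻¹).mul (PR.const lx)).mul (PR.pow ly)).inv

/-- The first two kinds of relators. -/
def rx (n : ℕ) : F2 := gam n * lx * (gam n)⁻¹ * lx⁻¹

/-- The first two kinds of relators. -/
def ry (n : ℕ) : F2 := gam n * ly * (gam n)⁻¹ * ly⁻¹

theorem rx_pr : PR rx :=
  ((gam_pr.mul (PR.const lx)).mul gam_pr.inv).mul (PR.const lx⁻¹)

theorem ry_pr : PR ry :=
  ((gam_pr.mul (PR.const ly)).mul gam_pr.inv).mul (PR.const ly⁻¹)

/-- The word of `gamT`. -/
def gw (T : Tab) (i : ℕ) : List Sg := (gamT T i).toWord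

theorem gw_primrec : Primrec₂ gw := by
  have h : Primrec fun p : Tab × ℕ => Encodable.encode (p.1, p.2) + 1 :=
    Primrec.succ.comp (Primrec.encode.comp (Primrec.fst.pair Primrec.snd))
  exact Primrec.comp (f := fun n => (gam n).toWord) gam_pr h

/-- The word of the relator of a table and an entry. -/
def tw (T : Tab) (e : ℕ × ℕ × ℕ) : List Sg :=
  gw T e.1 ++ (gw T e.2.1 ++ invRev (gw T e.2.2))

theorem ev_tw (T : Tab) (e : ℕ × ℕ × ℕ) :
    ev (tw T e) = gamT T e.1 * gamT T e.2.1 * (gamT T e.2.2)⁻¹ := by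
  unfold tw gw
  show FreeGroup.mk _ = _
  rw [← FreeGroup.mul_mk, ← FreeGroup.mul_mk, ← FreeGroup.inv_mk, mk_toWord, mk_toWord,
    mk_toWord, mul_assoc]

theorem tw_primrec : Primrec₂ tw := by
  have h0 : Primrec fun p : Tab × (ℕ × ℕ × ℕ) => p.1 := Primrec.fst
  have h1 : Primrec fun p : Tab × (ℕ × ℕ × ℕ) => p.2.1 := Primrec.fst.comp Primrec.snd
  have h2 : Primrec fun p : Tab × (ℕ × ℕ × ℕ) => p.2.2.1 :=
    Primrec.fst.comp (Primrec.snd.comp Primrec.snd)
  have h3 : Primrec fun p : Tab × (ℕ × ℕ × ℕ) => p.2.2.2 :=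
    Primrec.snd.comp (Primrec.snd.comp Primrec.snd)
  refine Primrec.list_append.comp (gw_primrec.comp h0 h1) (Primrec.list_append.comp
    (gw_primrec.comp h0 h2) ((invRev_primrec (Y := Fin 2)).comp (gw_primrec.comp h0 h3)))

/-- The data of a relator: a tag, a number, a table, an index. -/
abbrev Dat2 : Type := ℕ × ℕ × Tab × ℕ

/-- The relator of the data. -/
def rg (d : Dat2) : List Sg :=
  bif decide (d.1 = 0) then (rx d.2.1).toWord
  else bif decide (d.1 = 1) then (ry d.2.1).toWord
  else Option.casesOn (d.2.2.1[d.2.2.2]?) [] (tw d.2.2.1)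

theorem rg_primrec : Primrec rg := by
  have h0 : Primrec fun d : Dat2 => d.1 := Primrec.fst
  have h1 : Primrec fun d : Dat2 => d.2.1 := Primrec.fst.comp Primrec.snd
  have h2 : Primrec fun d : Dat2 => d.2.2.1 := Primrec.fst.comp (Primrec.snd.comp Primrec.snd)
  have h3 : Primrec fun d : Dat2 => d.2.2.2 := Primrec.snd.comp (Primrec.snd.comp Primrec.snd)
  have c0 : Primrec fun d : Dat2 => decide (d.1 = 0) :=
    (Primrec.eq.decide).comp h0 (Primrec.const 0)
  have c1 : Primrec fun d : Dat2 => decide (d.1 = 1) :=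
    (Primrec.eq.decide).comp h0 (Primrec.const 1)
  have g1 : Primrec fun d : Dat2 => (rx d.2.1).toWord :=
    Primrec.comp (f := fun n => (rx n).toWord) rx_pr h1
  have g2 : Primrec fun d : Dat2 => (ry d.2.1).toWord :=
    Primrec.comp (f := fun n => (ry n).toWord) ry_pr h1
  have g4 : Primrec fun d : Dat2 => d.2.2.1[d.2.2.2]? := Primrec.list_getElem?.comp h2 h3
  have g5 : Primrec₂ fun (d : Dat2) (e : ℕ × ℕ × ℕ) => tw d.2.2.1 e :=
    tw_primrec.comp (h2.comp Primrec.fst) Primrec.snd
  have g3 := Primrec.option_casesOn g4 (Primrec.const ([] : List Sg)) g5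
  exact Primrec.cond c0 g1 (Primrec.cond c1 g2 g3)

/-- The decoding of the data. -/
def dec2 (n : ℕ) : Option Dat2 := @Encodable.decode Dat2 Primcodable.toEncodable n

/-- The coding of the data. -/
def enc2 (d : Dat2) : ℕ := @Encodable.encode Dat2 Primcodable.toEncodable d

theorem dec2_enc2 (d : Dat2) : dec2 (enc2 d) = some d :=
  @Encodable.encodek Dat2 Primcodable.toEncodable d

theorem dec2_primrec : Primrec dec2 := Primrec.decode

/-- The enumeration of the relators. -/
def rr (n : ℕ) : List Sg := ((dec2 n).map rg).getD []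

theorem rr_primrec : Primrec rr :=
  Primrec.option_getD.comp (Primrec.option_map dec2_primrec (rg_primrec.comp Primrec.snd).to₂)
    (Primrec.const [])

theorem rr_enc2 (d : Dat2) : rr (enc2 d) = rg d := by
  unfold rr
  rw [dec2_enc2]
  rfl

/-- Module RELRE. -/
theorem relre : RelreStatement := by
  refine ⟨rr, rr_primrec.to_comp, le_antisymm (isol_le ?_) (isol_le ?_)⟩
  · rintro w ⟨n, rfl⟩
    show ev (rr n) ∈ isol rel2
    unfold rr
    rcases dec2 n with _ | d
    · exact one_mem _
    · show ev (rg d) ∈ isol rel2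
      unfold rg
      by_cases h0 : d.1 = 0
      · simp only [h0, decide_true, cond_true]
        rw [show ev (rx d.2.1).toWord = rx d.2.1 from mk_toWord]
        exact subset_isol _ (Or.inl ⟨_, rfl⟩)
      · simp only [h0, decide_false, cond_false]
        by_cases h1 : d.1 = 1
        · simp only [h1, decide_true, cond_true]
          rw [show ev (ry d.2.1).toWord = ry d.2.1 from mk_toWord]
          exact subset_isol _ (Or.inr (Or.inl ⟨_, rfl⟩))
        · simp only [h1, decide_false, cond_false]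
          rcases h : d.2.2.1[d.2.2.2]? with _ | e
          · exact one_mem _
          · show ev (tw d.2.2.1 e) ∈ isol rel2
            rw [ev_tw]
            exact subset_isol _ (Or.inr (Or.inr ⟨_, _, _, _, List.mem_of_getElem? h, rfl⟩))
  · rintro w (⟨n, rfl⟩ | ⟨n, rfl⟩ | ⟨T, i, j, k, hT, rfl⟩)
    · refine subset_isol _ ⟨enc2 (0, n, [], 0), ?_⟩
      show ev (rr _) = _
      rw [rr_enc2]
      exact mk_toWord
    · refine subset_isol _ ⟨enc2 (1, n, [], 0), ?_⟩
      show ev (rr _) = _
      rw [rr_enc2]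
      exact mk_toWord
    · obtain ⟨m, hm⟩ := List.mem_iff_getElem?.1 hT
      refine subset_isol _ ⟨enc2 (2, 0, T, m), ?_⟩
      show ev (rr _) = _
      rw [rr_enc2]
      show ev (Option.casesOn (T[m]?) [] (tw T)) = _
      rw [hm]
      exact ev_tw T (i, j, k)

end Pool.Agent.NegK.Hig.H7
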